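import Pool.Agent.W279.TriS.Defs

/-! Rescaling of chains. -/

set_option autoImplicit false

namespace Pool.Agent.W101.TriS.Scale

open Pool.Agent.W279.Tri Pool.Agent.W279.TriS

variable {L : Type} [Field L]

lemma lf_smul (g : Fin 3 → Fin 3 → L) (l b : L) (v : Fin 2 → L) (j : Fin 3) :
    lf (l • g) (b • v) j = l * b ^ 2 * lf g v j := by
  unfold lf
  rw [Finset.mul_sum]
  refine Finset.sum_congr rfl fun k _ => ?_
  fin_cases k <;> simp [mon] <;> ring

lemma pr_smul (a a' : L) (u u' : Fin 2 → L) (j : Fin 3) :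
    pr (a • u) (a' • u') j = a * a' * pr u u' j := by
  fin_cases j <;> simp [pr] <;> ring

/-- the recursion -/
noncomputable def rr (l a b : L) : ℕ → L × L
  | 0 => (a, b)
  | i + 1 => (l * (rr l a b i).2 ^ 2 / (rr l a b i).1,
      l * (l * (rr l a b i).2 ^ 2 / (rr l a b i).1) ^ 2 / (rr l a b i).2)

lemma rr_ne {l a b : L} (hl : l ≠ 0) (ha : a ≠ 0) (hb : b ≠ 0) (i : ℕ) :
    (rr l a b i).1 ≠ 0 ∧ (rr l a b i).2 ≠ 0 := by
  induction i with
  | zero => exact ⟨ha, hb⟩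
  | succ i ih =>
    obtain ⟨h1, h2⟩ := ih
    have h3 : l * (rr l a b i).2 ^ 2 / (rr l a b i).1 ≠ 0 :=
      div_ne_zero (mul_ne_zero hl (pow_ne_zero _ h2)) h1
    exact ⟨h3, div_ne_zero (mul_ne_zero hl (pow_ne_zero _ h3)) h2⟩

theorem main : StmtScale := by
  intro L _ g u v n l a b hl ha hb h
  refine ⟨fun i => (rr l a b i).1, fun i => (rr l a b i).2, rfl, rfl,
    fun i => (rr_ne hl ha hb i).1, fun i => (rr_ne hl ha hb i).2, fun i hi => ?_⟩
  obtain ⟨h1, h2⟩ := h i hi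
  obtain ⟨h3, h4⟩ := rr_ne hl ha hb i
  constructor
  · intro j
    rw [lf_smul, pr_smul, h1 j]
    show _ = (rr l a b i).1 * (l * (rr l a b i).2 ^ 2 / (rr l a b i).1) * _
    field_simp
  · intro k
    have e : (fun j k => (l • g) k j) = l • (fun j k => g k j) := rfl
    rw [e, lf_smul, pr_smul, h2 k]
    show l * (l * (rr l a b i).2 ^ 2 / (rr l a b i).1) ^ 2 * _ =
      (rr l a b i).2 * (l * (l * (rr l a b i).2 ^ 2 / (rr l a b i).1) ^ 2 / (rr l a b i).2) * _
    field_simp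

end Pool.Agent.W101.TriS.Scale
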